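import Pool.Agent.Q162.Syl.Mat

/-!
# MP_3a5363_co: minimal `ℓ₁`-norm of sums of Sylvester matrix rows

For every choice of `m n = (2^(n+1) + (-1)^n)/3` distinct rows of the Sylvester matrix of order
`2^n` the `ℓ₁`-norm of their sum is at least `(3n+7) 2^n / 9 + 2 (-1)^n / 9`.  More generally
the sum over any set `A` of rows has norm at least
`|A| + ∑_{j=1}^n 2^(n-j) dist (|A|, 2^j ℤ)`.
-/

namespace Pool.Agent.Results.MP_3a5363_co.SylvesterRows

open Finset Pool.Agent.Q162.Syl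

/-- the `k`-th row of the Sylvester matrix of order `2^n`, as a real vector -/
noncomputable def row (n : ℕ) (k : Fin (2 ^ n)) : Fin (2 ^ n) → ℝ :=
  fun i => (sylvester n k i : ℝ)

/-- the `ℓ₁`-norm -/
noncomputable def l1norm {N : ℕ} (x : Fin N → ℝ) : ℝ := ∑ i, |x i|

lemma l1norm_sum (n : ℕ) (A : Finset (Fin (2 ^ n))) :
    l1norm (∑ k ∈ A, row n k) = ((∑ i, |∑ k ∈ A, sylvester n k i| : ℤ) : ℝ) := by
  unfold l1norm row
  push_cast
  apply Finset.sum_congr rfl
  intro i _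
  rw [Finset.sum_apply]

lemma card_first (n : ℕ) :
    (Finset.univ.filter (fun k : Fin (2 ^ n) => (k : ℕ) < m n)).card = m n := by
  have h := m_le (n := n)
  have : (Finset.univ.filter (fun k : Fin (2 ^ n) => (k : ℕ) < m n)).card
      = (Finset.range (m n)).card := by
    apply Finset.card_bij (fun (k : Fin (2 ^ n)) _ => (k : ℕ))
    · intro k hk
      exact Finset.mem_range.2 (Finset.mem_filter.1 hk).2
    · intro a _ b _ hab
      exact Fin.ext hab
    · intro b hb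
      have hb' := Finset.mem_range.1 hb
      exact ⟨⟨b, by omega⟩, Finset.mem_filter.2 ⟨Finset.mem_univ _, hb'⟩, rfl⟩
  rw [this, Finset.card_range]

theorem result :
    (∀ n : ℕ, 1 ≤ n →
      (m n : ℝ) = ((2 : ℝ) ^ (n + 1) + (-1) ^ n) / 3 ∧
      ∀ σ : Equiv.Perm (Fin (2 ^ n)),
        (3 * (n : ℝ) + 7) * 2 ^ n / 9 + 2 * (-1) ^ n / 9 ≤
          l1norm (∑ k ∈ Finset.univ.filter (fun k : Fin (2 ^ n) => (k : ℕ) < m n),
            row n (σ k))) ∧
    (∀ (n : ℕ) (A : Finset (Fin (2 ^ n))),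
      (A.card : ℝ) + ∑ j ∈ Finset.range n, (2 : ℝ) ^ (n - 1 - j) * (T (2 ^ (j + 1)) A.card : ℝ) ≤
        l1norm (∑ k ∈ A, row n k)) := by
  refine ⟨fun n _ => ⟨?_, fun σ => ?_⟩, fun n A => ?_⟩
  · have h := three_m n
    have h2 : (3 : ℝ) * (m n : ℝ) = (2 : ℝ) ^ (n + 1) + (-1) ^ n := by exact_mod_cast h
    linarith
  · set B := (Finset.univ.filter (fun k : Fin (2 ^ n) => (k : ℕ) < m n)).map σ.toEmbedding
      with hB
    have h1 : ∑ k ∈ Finset.univ.filter (fun k : Fin (2 ^ n) => (k : ℕ) < m n), row n (σ k)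
        = ∑ k ∈ B, row n k := by
      rw [hB, Finset.sum_map]
      rfl
    have h2 : B.card = m n := by rw [hB, Finset.card_map, card_first]
    rw [h1, l1norm_sum]
    have h3 := main_bound n B h2
    have h4 : ((3 * n + 7) * 2 ^ n + 2 * (-1) ^ n : ℝ) ≤
        9 * ((∑ i, |∑ k ∈ B, sylvester n k i| : ℤ) : ℝ) := by exact_mod_cast h3
    linarith
  · rw [l1norm_sum]
    have h := rows_bound n A
    unfold f at h
    have h2 : (((A.card : ℤ) + ∑ j ∈ Finset.range n, 2 ^ (n - 1 - j) * T (2 ^ (j + 1)) A.card : ℤ)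
        : ℝ) ≤ ((∑ i, |∑ k ∈ A, sylvester n k i| : ℤ) : ℝ) := by exact_mod_cast h
    push_cast at h2 ⊢
    exact h2

end Pool.Agent.Results.MP_3a5363_co.SylvesterRows
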